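import Pool.Agent.H58.SF.Targets

/-!
# Symmetric relations without odd closed walks are bipartite
-/

set_option autoImplicit false

namespace Pool.Agent.H53.SF

open Pool.Agent.H68.BP Pool.Agent.H58.SF

theorem pf_NB : T_NB := by
  intro D E hsymm hodd
  have hirr : ∀ x, ¬ E x x := by
    intro x hx
    exact hodd ⟨0, fun _ => x, fun _ => hx, fun _ => rfl⟩
  let G : SimpleGraph D :=
    { Adj := E
      symm := ⟨fun x y h => hsymm x y h⟩
      loopless := ⟨hirr⟩ }
  have hcol : G.Colorable 2 := by
    rw [SimpleGraph.two_colorable_iff_forall_loop_even]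
    intro u p
    by_contra hp
    rw [Nat.not_even_iff_odd] at hp
    obtain ⟨n, hn⟩ := hp
    have hL : 0 < 2 * n + 1 := by omega
    refine hodd ⟨n, fun i => p.getVert (i % (2 * n + 1)), ?_, ?_⟩
    · intro i
      have hr : i % (2 * n + 1) < 2 * n + 1 := Nat.mod_lt _ hL
      have hadj : E (p.getVert (i % (2 * n + 1))) (p.getVert (i % (2 * n + 1) + 1)) :=
        p.adj_getVert_succ (by rw [hn]; exact hr)
      rcases Nat.lt_or_ge (i % (2 * n + 1) + 1) (2 * n + 1) with h | h
      · have h1 : (i + 1) % (2 * n + 1) = i % (2 * n + 1) + 1 := by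
          rw [Nat.add_mod, Nat.mod_eq_of_lt (show 1 < 2 * n + 1 by omega)]
          exact Nat.mod_eq_of_lt h
        show E _ (p.getVert ((i + 1) % (2 * n + 1)))
        rw [h1]
        exact hadj
      · have h2 : i % (2 * n + 1) + 1 = 2 * n + 1 := by omega
        have h1 : (i + 1) % (2 * n + 1) = 0 := by
          have : i + 1 = (2 * n + 1) * (i / (2 * n + 1)) + (2 * n + 1) := by
            have := Nat.div_add_mod i (2 * n + 1)
            omega
          rw [this]
          simp
        show E _ (p.getVert ((i + 1) % (2 * n + 1)))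
        rw [h1, SimpleGraph.Walk.getVert_zero]
        have h3 : p.getVert (i % (2 * n + 1) + 1) = u := by
          rw [h2]
          conv_lhs => rw [← hn]
          exact p.getVert_length
        rw [h3] at hadj
        exact hadj
    · intro i
      show p.getVert ((i + (2 * n + 1)) % (2 * n + 1)) = _
      rw [Nat.add_mod_right]
  obtain ⟨c⟩ := hcol
  refine ⟨fun x => decide (c x = 0), fun x y hxy h => ?_⟩
  have hne : c x ≠ c y := c.valid hxy
  have h' : decide (c x = 0) = decide (c y = 0) := h
  rw [decide_eq_decide] at h'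
  apply hne
  have hx := (c x).2
  have hy := (c y).2
  by_cases h0 : c x = 0
  · rw [h0, h'.1 h0]
  · have h1 : c y ≠ 0 := fun h => h0 (h'.2 h)
    ext
    have h2 : (c x : ℕ) ≠ 0 := fun h => h0 (Fin.ext h)
    have h3 : (c y : ℕ) ≠ 0 := fun h => h1 (Fin.ext h)
    omega

end Pool.Agent.H53.SF
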