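import Pool.Agent.H58.SF.Targets

/-!
# Lemma G: a family at some level gives a family of single coordinates at some level
-/

set_option autoImplicit false

namespace Pool.Agent.H53.SF

open Pool.Agent.H68.BP Pool.Agent.H58.SF

variable {σ : Sig} {A : Type} {𝔸 : Str σ A} {B : Set A} {F G : Finset A} {K I J : Type}
  {Q : (I : Type) → ((I → A) → A) → Set (Set I)} {N b : ℕ}

/-- There is a family with the parameters `N`, `b` at some level. -/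
def Ex (𝔸 : Str σ A) (B : Set A) (N b : ℕ) : Prop :=
  ∃ F : Finset A, (F : Set A) ⊆ B ∧ ∃ Q, Fam 𝔸 B F N b Q

theorem snd_map_id {K' : Type} (τ : K → K') (Z : Set (K × I)) :
    Prod.snd '' (Prod.map τ id '' Z) = Prod.snd '' Z := by
  ext i
  constructor
  · rintro ⟨_, ⟨p, hp, rfl⟩, rfl⟩
    exact ⟨p, hp, rfl⟩
  · rintro ⟨p, hp, rfl⟩
    exact ⟨_, ⟨p, hp, rfl⟩, rfl⟩

theorem fst_map_id {K' : Type} (τ : K → K') (Z : Set (K × I)) :
    Prod.fst '' (Prod.map τ id '' Z) = τ '' (Prod.fst '' Z) := by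
  ext i
  constructor
  · rintro ⟨_, ⟨p, hp, rfl⟩, rfl⟩
    exact ⟨_, ⟨p, hp, rfl⟩, rfl⟩
  · rintro ⟨_, ⟨p, hp, rfl⟩, rfl⟩
    exact ⟨_, ⟨p, hp, rfl⟩, rfl⟩

theorem fst_map_id_inter {K' : Type} (τ : K → K') (Z : Set (K × I)) (D : Set I) :
    Prod.fst '' (Prod.map τ id '' Z ∩ Prod.snd ⁻¹' D) = τ '' (Prod.fst '' (Z ∩ Prod.snd ⁻¹' D)) := by
  ext i
  constructor
  · rintro ⟨_, ⟨⟨p, hp, rfl⟩, hD⟩, rfl⟩
    exact ⟨_, ⟨p, ⟨hp, hD⟩, rfl⟩, rfl⟩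
  · rintro ⟨_, ⟨p, ⟨hp, hD⟩, rfl⟩, rfl⟩
    exact ⟨_, ⟨⟨p, hp, rfl⟩, hD⟩, rfl⟩

/-- The shifted family over a robust set. -/
theorem shift_fam (hQ : Fam 𝔸 B F N (b + 1) Q) [Finite I]
    {f : (I → A) → A} (hf : Dom 𝔸 B F f) (hA : Above F f G) {Y Y' : Set I}
    (hdis : Disjoint Y Y')
    (hY : ∀ (K : Type) [Finite K] [Nonempty K] (g : (K → A) → A), Dom 𝔸 B G g →
      ∃ Z ∈ Q (K × I) (star g f), Prod.snd '' Z = Y)
    (hY' : ∀ (K : Type) [Finite K] [Nonempty K] (g : (K → A) → A), Dom 𝔸 B G g →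
      ∃ Z ∈ Q (K × I) (star g f), Prod.snd '' Z = Y') :
    Fam 𝔸 B G N b (fun K g => {X | ∃ Z ∈ Q (K × I) (star g f),
      Prod.snd '' Z = Y ∧ Prod.fst '' Z = X}) where
  ne := by
    intro K _ _ g hg
    obtain ⟨Z, hZ, hZY⟩ := hY K g hg
    exact ⟨_, Z, hZ, hZY, rfl⟩
  sz := by
    rintro K _ g hg X ⟨Z, hZ, _, rfl⟩
    obtain ⟨h1, h2⟩ := hQ.sz _ _ (hf.star hg hA) Z hZ
    exact ⟨h1.image _, (Set.ncard_image_le (Set.toFinite Z)).trans h2⟩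
  cov := by
    rintro K K' _ _ τ g g' hg hg' hm X ⟨Z, hZ, hZY, rfl⟩
    exact ⟨_, hQ.cov _ _ _ _ _ (hf.star hg hA) (hf.star hg' hA)
      (mnr_star_left hA hm) Z hZ, by rw [snd_map_id, hZY], fst_map_id τ Z⟩
  dj := by
    rintro K _ g hg ⟨X, hX, hXd⟩
    have hK : Nonempty K := by
      obtain ⟨Z, hZ, _, hZX⟩ := hX 0
      obtain ⟨p, _⟩ := (hQ.sz _ _ (hf.star hg hA) Z hZ).1
      exact ⟨p.1⟩
    choose Z hZ hZY hZX using hX
    obtain ⟨Z', hZ', hZY'⟩ := hY' K g hg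
    refine hQ.dj _ _ (hf.star hg hA) ⟨Fin.cons Z' Z, ?_, ?_⟩
    · intro j
      refine Fin.cases ?_ (fun j => ?_) j
      · exact hZ'
      · exact hZ j
    · have key : ∀ j, Disjoint Z' (Z j) := by
        intro j
        rw [Set.disjoint_left]
        intro p hp hp'
        have h1 : p.2 ∈ Y' := hZY' ▸ ⟨p, hp, rfl⟩
        have h2 : p.2 ∈ Y := hZY j ▸ ⟨p, hp', rfl⟩
        exact Set.disjoint_left.1 hdis h2 h1
      have key2 : ∀ i j, i ≠ j → Disjoint (Z i) (Z j) := by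
        intro i j hij
        rw [Set.disjoint_left]
        intro p hp hp'
        have h1 : p.1 ∈ X i := hZX i ▸ ⟨p, hp, rfl⟩
        have h2 : p.1 ∈ X j := hZX j ▸ ⟨p, hp', rfl⟩
        exact Set.disjoint_left.1 (hXd _ _ hij) h1 h2
      intro i j hij
      revert hij
      refine Fin.cases ?_ (fun i => ?_) i <;> refine Fin.cases ?_ (fun j => ?_) j
      · intro h
        exact absurd rfl h
      · intro _
        exact key j
      · intro _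
        exact (key i).symm
      · intro h
        exact key2 i j fun h' => h (by rw [h'])

theorem noDisj_zero {S : Set (Set I)} (h : ¬ HasDisj S (0 + 1)) : S = ∅ := by
  by_contra hne
  obtain ⟨Z, hZ⟩ := Set.nonempty_iff_ne_empty.2 hne
  refine h ⟨fun _ => Z, fun _ => hZ, ?_⟩
  intro i j hij
  exact absurd (by omega) hij

theorem noDisj_one {S : Set (Set I)} (h : ¬ HasDisj S (1 + 1)) {X X' : Set I} (hX : X ∈ S)
    (hX' : X' ∈ S) : ¬ Disjoint X X' := by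
  intro hd
  refine h ⟨![X, X'], ?_, ?_⟩
  · intro j
    fin_cases j
    · exact hX
    · exact hX'
  · intro i j hij
    fin_cases i <;> fin_cases j
    · exact absurd rfl hij
    · exact hd
    · exact hd.symm
    · exact absurd rfl hij

theorem noDisj_one_of {S : Set (Set I)} (h : ∀ X ∈ S, ∀ X' ∈ S, ¬ Disjoint X X') :
    ¬ HasDisj S (1 + 1) := by
  rintro ⟨Z, hZ, hd⟩
  exact h _ (hZ 0) _ (hZ 1) (hd _ _ (by decide))

/-- A common witness for two robust sets. -/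
theorem common {f : (I → A) → A} {Y Y' : Set I} (hY : Y ∈ Robust 𝔸 B F Q I f) (hY' : Y' ∈ Robust 𝔸 B F Q I f) :
    ∃ G : Finset A, (G : Set A) ⊆ B ∧ Above F f G ∧
      (∀ (K : Type) [Finite K] [Nonempty K] (g : (K → A) → A), Dom 𝔸 B G g →
        ∃ Z ∈ Q (K × I) (star g f), Prod.snd '' Z = Y) ∧
      (∀ (K : Type) [Finite K] [Nonempty K] (g : (K → A) → A), Dom 𝔸 B G g →
        ∃ Z ∈ Q (K × I) (star g f), Prod.snd '' Z = Y') := by
  classical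
  obtain ⟨G, hG, hA, hGZ⟩ := hY
  obtain ⟨G', hG', hA', hGZ'⟩ := hY'
  refine ⟨G ∪ G', ?_, hA.mono Finset.subset_union_left, ?_, ?_⟩
  · rw [Finset.coe_union]
    exact Set.union_subset hG hG'
  · intro K _ _ g hg
    exact hGZ K g (hg.mono Finset.subset_union_left)
  · intro K _ _ g hg
    exact hGZ' K g (hg.mono Finset.subset_union_right)

theorem nonempty_of_sz {f : (I → A) → A} (hQ : Fam 𝔸 B F N b Q) [Finite I]
    (hf : Dom 𝔸 B F f) {X : Set I} (hX : X ∈ Q I f) : Nonempty I := by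
  obtain ⟨i, _⟩ := (hQ.sz _ _ hf X hX).1
  exact ⟨i⟩

/-- Step (i): with `b` minimal, robust sets intersect. -/
theorem rho_intersecting (hRB : T_RB) (hF : (F : Set A) ⊆ B) (hQ : Fam 𝔸 B F N b Q)
    (hmin : ∀ b' < b, ¬ Ex 𝔸 B N b') [Finite I]
    {f : (I → A) → A} (hf : Dom 𝔸 B F f) {Y Y' : Set I} (hY : Y ∈ Robust 𝔸 B F Q I f)
    (hY' : Y' ∈ Robust 𝔸 B F Q I f) : ¬ Disjoint Y Y' := by
  intro hd
  have hYQ := (hRB σ A 𝔸 B F Q hF hQ.cov).2 I f hf hY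
  obtain ⟨G, hGB, hA, h0, h1⟩ := common hY hY'
  rcases b with _ | b
  · have := noDisj_zero (hQ.dj I f hf)
    rw [this] at hYQ
    exact hYQ
  · exact hmin b (Nat.lt_succ_self b) ⟨G, hGB, _, shift_fam hQ hf hA hd h0 h1⟩

/-- All members of `Q f` have exactly `N` elements. -/
def Full (Q : (I : Type) → ((I → A) → A) → Set (Set I)) (N : ℕ) {I : Type}
    (f : (I → A) → A) : Prop := ∀ X ∈ Q I f, X.ncard = N

theorem full_inj (hQ : Fam 𝔸 B F N b Q) [Finite I] [Finite K]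
    {f : (I → A) → A} (hf : Dom 𝔸 B F f) (hfull : Full Q N f) (hA : Above F f G)
    {g : (K → A) → A} (hg : Dom 𝔸 B G g) {Z : Set (K × I)} (hZ : Z ∈ Q (K × I) (star g f)) :
    Z.ncard = N ∧ Set.InjOn Prod.snd Z := by
  have h1 := hfull _ (hQ.cov _ _ _ _ _ (hf.star hg hA) hf (mnr_star_snd hg hA) Z hZ)
  have h2 := (hQ.sz _ _ (hf.star hg hA) Z hZ).2
  have h3 : (Prod.snd '' Z).ncard ≤ Z.ncard := Set.ncard_image_le (Set.toFinite Z)
  have h4 : Z.ncard = N := le_antisymm h2 (h1 ▸ h3)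
  exact ⟨h4, Set.injOn_of_ncard_image_eq (by rw [h1, h4]) (Set.toFinite Z)⟩

theorem full_star (hQ : Fam 𝔸 B F N b Q) [Finite I] [Finite K]
    {f : (I → A) → A} (hf : Dom 𝔸 B F f) (hfull : Full Q N f) (hA : Above F f G)
    {g : (K → A) → A} (hg : Dom 𝔸 B G g) : Full Q N (star g f) :=
  fun _ hZ => (full_inj hQ hf hfull hA hg hZ).1

/-- Step (ii): for a full `f` there is only one robust set. -/
theorem rho_unique (hRB : T_RB) (hF : (F : Set A) ⊆ B) (hQ : Fam 𝔸 B F N 1 Q)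
    (hmin : ∀ N' < N, ∀ b', ¬ Ex 𝔸 B N' b') [Finite I]
    {f : (I → A) → A} (hf : Dom 𝔸 B F f) (hfull : Full Q N f) {Y Y' : Set I}
    (hY : Y ∈ Robust 𝔸 B F Q I f) (hY' : Y' ∈ Robust 𝔸 B F Q I f) : Y = Y' := by
  by_contra hne
  have hsub := (hRB σ A 𝔸 B F Q hF hQ.cov).2 I f hf
  have hYN := hfull _ (hsub hY)
  have hYN' := hfull _ (hsub hY')
  have hD : (Y ∩ Y').ncard < N := by
    have h1 : (Y ∩ Y').ncard ≤ Y.ncard := Set.ncard_le_ncard Set.inter_subset_left (Set.toFinite Y)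
    rcases h1.lt_or_eq with h | h
    · omega
    · exfalso
      apply hne
      have h2 : Y ∩ Y' = Y := Set.eq_of_subset_of_ncard_le Set.inter_subset_left h.ge (Set.toFinite Y)
      have h3 : Y ⊆ Y' := by
        rw [← h2]
        exact Set.inter_subset_right
      exact Set.eq_of_subset_of_ncard_le h3 (by omega) (Set.toFinite Y')
  obtain ⟨G, hGB, hA, hG0, hG1⟩ := common hY hY'
  have meet : ∀ (K : Type) [Finite K] (g : (K → A) → A), Dom 𝔸 B G g →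
      ∀ Z ∈ Q (K × I) (star g f),
      Prod.snd '' Z = Y → ∀ Z' ∈ Q (K × I) (star g f), Prod.snd '' Z' = Y' →
      ∃ p, p ∈ Z ∧ p ∈ Z' ∧ p.2 ∈ Y ∩ Y' := by
    intro K _ g hg Z hZ hZY Z' hZ' hZY'
    have := noDisj_one (hQ.dj _ _ (hf.star hg hA)) hZ hZ'
    rw [Set.not_disjoint_iff] at this
    obtain ⟨p, hp, hp'⟩ := this
    exact ⟨p, hp, hp', hZY ▸ ⟨p, hp, rfl⟩, hZY' ▸ ⟨p, hp', rfl⟩⟩
  refine hmin _ hD (Y ∩ Y').ncard ⟨G, hGB, fun K g => {X | ∃ Z ∈ Q (K × I) (star g f),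
      Prod.snd '' Z = Y ∧ Prod.fst '' (Z ∩ Prod.snd ⁻¹' (Y ∩ Y')) = X}, ?_⟩
  have hcard : ∀ (K : Type) [Finite K] (g : (K → A) → A), Dom 𝔸 B G g →
      ∀ Z ∈ Q (K × I) (star g f),
      (Z ∩ Prod.snd ⁻¹' (Y ∩ Y')).ncard ≤ (Y ∩ Y').ncard := by
    intro K _ g hg Z hZ
    have hinj := (full_inj hQ hf hfull hA hg hZ).2
    rw [← Set.InjOn.ncard_image (hinj.mono Set.inter_subset_left)]
    refine Set.ncard_le_ncard ?_ (Set.toFinite _)
    rintro i ⟨p, hp, rfl⟩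
    exact hp.2
  have hKne : ∀ (K : Type) [Finite K] (g : (K → A) → A), Dom 𝔸 B G g →
      ∀ Z ∈ Q (K × I) (star g f), Nonempty K := by
    intro K _ g hg Z hZ
    obtain ⟨p, _⟩ := (hQ.sz _ _ (hf.star hg hA) Z hZ).1
    exact ⟨p.1⟩
  refine ⟨?_, ?_, ?_, ?_⟩
  · rintro K K' _ _ τ g g' hg hg' hm X ⟨Z, hZ, hZY, rfl⟩
    exact ⟨_, hQ.cov _ _ _ _ _ (hf.star hg hA) (hf.star hg' hA)
      (mnr_star_left hA hm) Z hZ, by rw [snd_map_id, hZY], fst_map_id_inter τ Z _⟩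
  · intro K _ _ g hg
    obtain ⟨Z, hZ, hZY⟩ := hG0 K g hg
    exact ⟨_, Z, hZ, hZY, rfl⟩
  · rintro K _ g hg X ⟨Z, hZ, hZY, rfl⟩
    have := hKne K g hg Z hZ
    obtain ⟨Z', hZ', hZY'⟩ := hG1 K g hg
    obtain ⟨p, hp, hp', hpD⟩ := meet K g hg Z hZ hZY Z' hZ' hZY'
    exact ⟨⟨p.1, p, ⟨hp, hpD⟩, rfl⟩,
      (Set.ncard_image_le (Set.toFinite _)).trans (hcard K g hg Z hZ)⟩
  · rintro K _ g hg ⟨X, hX, hXd⟩
    choose Z hZ hZY hZX using hX
    have := hKne K g hg (Z 0) (hZ 0)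
    obtain ⟨Z', hZ', hZY'⟩ := hG1 K g hg
    choose p hp hp' hpD using fun j => meet K g hg (Z j) (hZ j) (hZY j) Z' hZ' hZY'
    have hinj : Function.Injective p := by
      intro i j hij
      by_contra hne
      have h1 : (p i).1 ∈ X i := hZX i ▸ ⟨p i, ⟨hp i, hpD i⟩, rfl⟩
      have h2 : (p i).1 ∈ X j := by
        rw [hij]
        exact hZX j ▸ ⟨p j, ⟨hp j, hpD j⟩, rfl⟩
      exact Set.disjoint_left.1 (hXd _ _ hne) h1 h2
    have h3 : (Set.range p).ncard ≤ (Y ∩ Y').ncard := by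
      refine (Set.ncard_le_ncard ?_ (Set.toFinite _)).trans (hcard K g hg Z' hZ')
      rintro _ ⟨j, rfl⟩
      exact ⟨hp' j, hpD j⟩
    rw [← Set.image_univ, Set.ncard_image_of_injective _ hinj, Set.ncard_univ,
      Nat.card_eq_fintype_card, Fintype.card_fin] at h3
    omega

/-- Robust sets exist for a family. -/
theorem rho_nonempty (hRA : T_RA) (hF : (F : Set A) ⊆ B) (hQ : Fam 𝔸 B F N b Q) [Finite I]
    [Nonempty I] {f : (I → A) → A} (hf : Dom 𝔸 B F f) : (Robust 𝔸 B F Q I f).Nonempty := by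
  obtain ⟨G, hGB, hA, _⟩ := exists_above hF hF hf
  exact hRA σ A 𝔸 B F Q hF hQ.cov I f hf G hGB hA fun K _ _ g hg =>
    hQ.ne _ _ (hf.star hg hA)

/-- Lemma G. -/
theorem pf_LG (hRA : T_RA) (hRB : T_RB) : T_LG := by
  classical
  intro σ A 𝔸 B F N b Q hF hQ
  have hex : ∃ N b, Ex 𝔸 B N b := ⟨N, b, F, hF, Q, hQ⟩
  clear hQ hF
  obtain ⟨N₀, hb, hmin⟩ : ∃ N, (∃ b, Ex 𝔸 B N b) ∧ ∀ N' < N, ∀ b', ¬ Ex 𝔸 B N' b' :=
    ⟨Nat.find hex, Nat.find_spec hex, fun N' hN' b' hE => Nat.find_min hex hN' ⟨b', hE⟩⟩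
  obtain ⟨b₀, hE, hmin2⟩ : ∃ b, Ex 𝔸 B N₀ b ∧ ∀ b' < b, ¬ Ex 𝔸 B N₀ b' :=
    ⟨Nat.find hb, Nat.find_spec hb, fun b' hb' => Nat.find_min hb hb'⟩
  obtain ⟨F₀, hF₀, Q₀, hQ₀⟩ := hE
  have hE1 : Fam 𝔸 B F₀ N₀ 1 (Robust 𝔸 B F₀ Q₀) := by
    obtain ⟨hcov, hsub⟩ := hRB σ A 𝔸 B F₀ Q₀ hF₀ hQ₀.cov
    exact
    { cov := hcov
      ne := fun _ _ _ _ hf => rho_nonempty hRA hF₀ hQ₀ hf
      sz := fun I _ f hf X hX => hQ₀.sz I f hf X (hsub I f hf hX)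
      dj := fun _ _ _ hf => noDisj_one_of fun _ hX _ hX' =>
        rho_intersecting hRB hF₀ hQ₀ hmin2 hf hX hX' }
  clear hQ₀
  generalize Robust 𝔸 B F₀ Q₀ = Q₁ at hE1
  obtain ⟨hcov1, hsub1⟩ := hRB σ A 𝔸 B F₀ Q₁ hF₀ hE1.cov
  rcases Nat.lt_trichotomy N₀ 1 with hN | hN | hN
  · exfalso
    have hp : Dom 𝔸 B F₀ (fun x : Unit → A => x ()) := dom_unit hF₀
    obtain ⟨X, hX⟩ := hE1.ne _ _ hp
    obtain ⟨h1, h2⟩ := hE1.sz _ _ hp X hX
    have h3 := (Set.ncard_pos (Set.toFinite X)).2 h1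
    omega
  · subst hN
    exact ⟨F₀, Q₁, hF₀, hE1⟩
  · exfalso
    obtain ⟨I, hI, hIne, f, hf, hfull⟩ : ∃ (I : Type) (_ : Finite I) (_ : Nonempty I)
        (f : (I → A) → A), Dom 𝔸 B F₀ f ∧ Full Q₁ N₀ f := by
      by_contra hcon
      push Not at hcon
      refine hmin (N₀ - 1) (by omega) 1 ⟨F₀, hF₀,
        fun I f => {X | X ∈ Q₁ I f ∧ X.ncard ≤ N₀ - 1}, ?_⟩
      refine ⟨?_, ?_, ?_, ?_⟩
      · intro I J _ _ π f g hf hg hm X hX
        exact ⟨hE1.cov _ _ _ _ _ hf hg hm X hX.1,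
          (Set.ncard_image_le (Set.toFinite X)).trans hX.2⟩
      · intro I _ _ f hf
        have h := hcon I inferInstance inferInstance f hf
        unfold Full at h
        push Not at h
        obtain ⟨X, hX, hXN⟩ := h
        have := (hE1.sz I f hf X hX).2
        exact ⟨X, hX, by omega⟩
      · intro I _ f hf X hX
        exact ⟨(hE1.sz I f hf X hX.1).1, hX.2⟩
      · intro I _ f hf
        exact noDisj_one_of fun X hX X' hX' => noDisj_one (hE1.dj I f hf) hX.1 hX'.1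
    obtain ⟨Y, hY⟩ := rho_nonempty hRA hF₀ hE1 hf
    obtain ⟨i, hi⟩ := (hE1.sz _ _ hf Y (hsub1 I f hf hY)).1
    obtain ⟨G, hGB, hA, _⟩ := exists_above hF₀ hF₀ hf
    refine hmin 1 hN 1 ⟨G, hGB, fun K g => {X | ∃ Z ∈ Robust 𝔸 B F₀ Q₁ (K × I) (star g f),
      Prod.fst '' (Z ∩ Prod.snd ⁻¹' {i}) = X}, ?_⟩
    have hproj : ∀ (K : Type) [Finite K] (g : (K → A) → A), Dom 𝔸 B G g →
        ∀ Z ∈ Robust 𝔸 B F₀ Q₁ (K × I) (star g f), ∃ p ∈ Z, p.2 = i := by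
      intro K _ g hg Z hZ
      have h1 := hcov1 _ _ _ _ _ (hf.star hg hA) hf (mnr_star_snd hg hA) Z hZ
      have h2 := rho_unique hRB hF₀ hE1 hmin hf hfull h1 hY
      rw [← h2] at hi
      obtain ⟨p, hp, hpi⟩ := hi
      exact ⟨p, hp, hpi⟩
    refine ⟨?_, ?_, ?_, ?_⟩
    · rintro K K' _ _ τ g g' hg hg' hm X ⟨Z, hZ, rfl⟩
      exact ⟨_, hcov1 _ _ _ _ _ (hf.star hg hA) (hf.star hg' hA)
        (mnr_star_left hA hm) Z hZ, fst_map_id_inter τ Z _⟩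
    · intro K _ _ g hg
      obtain ⟨Z, hZ⟩ := rho_nonempty hRA hF₀ hE1 (hf.star hg hA)
      exact ⟨_, Z, hZ, rfl⟩
    · rintro K _ g hg X ⟨Z, hZ, rfl⟩
      obtain ⟨p, hp, hpi⟩ := hproj K g hg Z hZ
      refine ⟨⟨p.1, p, ⟨hp, hpi⟩, rfl⟩, ?_⟩
      refine (Set.ncard_image_le (Set.toFinite _)).trans ?_
      have hinj := (full_inj hE1 hf hfull hA hg (hsub1 _ _ (hf.star hg hA) hZ)).2
      rw [Set.ncard_le_one (Set.toFinite _)]
      intro a ha c hc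
      exact hinj ha.1 hc.1 (by rw [show a.2 = i from ha.2, show c.2 = i from hc.2])
    · intro K _ g hg
      refine noDisj_one_of ?_
      rintro X ⟨Z, hZ, rfl⟩ X' ⟨Z', hZ', rfl⟩ hd
      have hZZ := rho_unique hRB hF₀ hE1 hmin (hf.star hg hA)
        (full_star hE1 hf hfull hA hg) hZ hZ'
      subst hZZ
      obtain ⟨p, hp, hpi⟩ := hproj K g hg Z hZ
      have h1 : p.1 ∈ Prod.fst '' (Z ∩ Prod.snd ⁻¹' {i}) := ⟨p, ⟨hp, hpi⟩, rfl⟩
      exact Set.disjoint_left.1 hd h1 h1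

end Pool.Agent.H53.SF
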